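import Mathlib

open scoped LinearAlgebra.Projectivization

namespace Pool.Agent.Results.MP_10bb55_an.NoRepelling

/-- A holomorphic self-map of `P^2` of degree `d`, given by three homogeneous polynomials of
degree `d` in three variables whose only common zero is the origin of `C^3`. -/
structure HolMap (d : ℕ) where
  F : Fin 3 → MvPolynomial (Fin 3) ℂ
  homogeneous : ∀ i, (F i).IsHomogeneous d
  onlyZero : ∀ z : Fin 3 → ℂ, (∀ i, MvPolynomial.eval z (F i) = 0) → z = 0

/-- The lift `z ↦ (F_0(z), F_1(z), F_2(z))` to `C^3`. -/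
noncomputable def HolMap.lift {d : ℕ} (f : HolMap d) (z : Fin 3 → ℂ) : Fin 3 → ℂ :=
  fun i => MvPolynomial.eval z (f.F i)

theorem HolMap.lift_ne_zero {d : ℕ} (f : HolMap d) {z : Fin 3 → ℂ} (hz : z ≠ 0) :
    f.lift z ≠ 0 :=
  fun h => hz (f.onlyZero z fun i => congrFun h i)

/-- The induced map `[z] ↦ [F_0(z) : F_1(z) : F_2(z)]` of the projective plane. -/
noncomputable def HolMap.map {d : ℕ} (f : HolMap d) (p : ℙ ℂ (Fin 3 → ℂ)) : ℙ ℂ (Fin 3 → ℂ) :=
  Projectivization.mk ℂ (f.lift p.rep) (f.lift_ne_zero p.rep_nonzero)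

/-- The affine point `u ∈ C^2` seen in `P^2` through the `i`-th standard chart: the homogeneous
coordinate number `i` is `1`, the others are the coordinates of `u`. -/
noncomputable def toPlane (i : Fin 3) (u : Fin 2 → ℂ) : ℙ ℂ (Fin 3 → ℂ) :=
  Projectivization.mk ℂ (i.insertNth (α := fun _ => ℂ) 1 u) (fun h => by
    have := congrFun h i
    simp at this)

/-- The `i`-th standard chart `[z] ↦ (z_j / z_i)_{j ≠ i}` of the projective plane. -/
noncomputable def ofPlane (i : Fin 3) (p : ℙ ℂ (Fin 3 → ℂ)) : Fin 2 → ℂ :=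
  fun j => p.rep (i.succAbove j) / p.rep i

/-- The map read in the `i`-th standard chart (both in the source and in the target). -/
noncomputable def HolMap.inChart {d : ℕ} (f : HolMap d) (i : Fin 3) (u : Fin 2 → ℂ) : Fin 2 → ℂ :=
  ofPlane i (f.map (toPlane i u))

theorem eval_smul_of_homogeneous {d : ℕ} {P : MvPolynomial (Fin 3) ℂ} (hP : P.IsHomogeneous d)
    (a : ℂ) (z : Fin 3 → ℂ) :
    MvPolynomial.eval (a • z) P = a ^ d * MvPolynomial.eval z P := by
  rw [MvPolynomial.eval_eq', MvPolynomial.eval_eq', Finset.mul_sum]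
  refine Finset.sum_congr rfl fun m hm => ?_
  have hdeg : ∑ i, m i = d := by
    have := hP (MvPolynomial.mem_support_iff.1 hm)
    rw [← this, Finsupp.weight_apply, Finsupp.sum_fintype]
    · simp
    · simp
  simp only [Pi.smul_apply, smul_eq_mul, mul_pow, Finset.prod_mul_distrib]
  rw [Finset.prod_pow_eq_pow_sum, hdeg]
  ring

theorem lift_smul {d : ℕ} (f : HolMap d) (a : ℂ) (z : Fin 3 → ℂ) :
    f.lift (a • z) = a ^ d • f.lift z := by
  funext i
  simp only [HolMap.lift, Pi.smul_apply, smul_eq_mul]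
  exact eval_smul_of_homogeneous (f.homogeneous i) a z

/-- The induced map is computed on any representative. -/
theorem map_mk {d : ℕ} (f : HolMap d) (z : Fin 3 → ℂ) (hz : z ≠ 0) :
    f.map (Projectivization.mk ℂ z hz) = Projectivization.mk ℂ (f.lift z) (f.lift_ne_zero hz) := by
  obtain ⟨a, ha⟩ := Projectivization.exists_smul_eq_mk_rep ℂ z hz
  unfold HolMap.map
  rw [Projectivization.mk_eq_mk_iff']
  refine ⟨(a : ℂ) ^ d, ?_⟩
  rw [← lift_smul, ← ha]
  rfl

theorem ofPlane_mk (i : Fin 3) (z : Fin 3 → ℂ) (hz : z ≠ 0) :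
    ofPlane i (Projectivization.mk ℂ z hz) = fun j => z (i.succAbove j) / z i := by
  obtain ⟨a, ha⟩ := Projectivization.exists_smul_eq_mk_rep ℂ z hz
  funext j
  unfold ofPlane
  rw [← ha]
  have : (a : ℂ) ≠ 0 := a.ne_zero
  simp only [Pi.smul_apply, Units.smul_def, smul_eq_mul]
  rw [mul_div_mul_left _ _ this]

theorem inChart_eq {d : ℕ} (f : HolMap d) (i : Fin 3) :
    f.inChart i = fun u j => f.lift (i.insertNth (α := fun _ => ℂ) 1 u) (i.succAbove j) /
      f.lift (i.insertNth (α := fun _ => ℂ) 1 u) i := by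
  funext u
  unfold HolMap.inChart toPlane
  rw [map_mk, ofPlane_mk]

/-- The linear inclusion `C^2 → C^3` putting `0` at place `i`. -/
noncomputable def ins (i : Fin 3) : (Fin 2 → ℂ) →L[ℂ] (Fin 3 → ℂ) :=
  LinearMap.toContinuousLinearMap
    { toFun := fun h => i.insertNth (α := fun _ => ℂ) 0 h
      map_add' := by
        intro x y
        funext k
        rcases Fin.eq_self_or_eq_succAbove i k with rfl | ⟨j, rfl⟩ <;> simp
      map_smul' := by
        intro a x
        funext k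
        rcases Fin.eq_self_or_eq_succAbove i k with rfl | ⟨j, rfl⟩ <;> simp }

theorem ins_same (i : Fin 3) (h : Fin 2 → ℂ) : ins i h i = 0 := by simp [ins]

theorem ins_succAbove (i : Fin 3) (h : Fin 2 → ℂ) (j : Fin 2) :
    ins i h (i.succAbove j) = h j := by simp [ins]

theorem insertNth_eq (i : Fin 3) (u : Fin 2 → ℂ) :
    i.insertNth (α := fun _ => ℂ) 1 u = Pi.single i 1 + ins i u := by
  funext k
  rcases Fin.eq_self_or_eq_succAbove i k with rfl | ⟨j, rfl⟩
  · simp [ins_same]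
  · simp [ins_succAbove]

theorem hasFDerivAt_insertNth (i : Fin 3) (u : Fin 2 → ℂ) :
    HasFDerivAt (fun u : Fin 2 → ℂ => i.insertNth (α := fun _ => ℂ) 1 u) (ins i) u := by
  have : (fun u : Fin 2 → ℂ => i.insertNth (α := fun _ => ℂ) 1 u)
      = fun u => Pi.single i 1 + ins i u := by
    funext u; exact insertNth_eq i u
  rw [this]
  exact ((ins i).hasFDerivAt).const_add _

/-- Derivative of the map read in a chart at a fixed point `v` (normalised by `v_i = 1`). -/
theorem hasFDerivAt_chart (G : (Fin 3 → ℂ) → (Fin 3 → ℂ)) (i : Fin 3) (u : Fin 2 → ℂ)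
    (L : (Fin 3 → ℂ) →L[ℂ] (Fin 3 → ℂ))
    (hL : HasFDerivAt G L (i.insertNth (α := fun _ => ℂ) 1 u)) (c : ℂ) (hc : c ≠ 0)
    (hG : G (i.insertNth (α := fun _ => ℂ) 1 u) = c • i.insertNth (α := fun _ => ℂ) 1 u) :
    ∃ A : (Fin 2 → ℂ) →L[ℂ] (Fin 2 → ℂ),
      HasFDerivAt (fun (u : Fin 2 → ℂ) (j : Fin 2) =>
        G (i.insertNth (α := fun _ => ℂ) 1 u) (i.succAbove j) /
          G (i.insertNth (α := fun _ => ℂ) 1 u) i) A u ∧
      ∀ (h : Fin 2 → ℂ) (j : Fin 2),
        A h j = c⁻¹ * (L (ins i h) (i.succAbove j) - u j * L (ins i h) i) := by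
  have hcomp : HasFDerivAt (fun u : Fin 2 → ℂ => G (i.insertNth (α := fun _ => ℂ) 1 u))
      (L.comp (ins i)) u := HasFDerivAt.comp u hL (hasFDerivAt_insertNth i u)
  have hcoord : ∀ k : Fin 3, HasFDerivAt
      (fun u : Fin 2 → ℂ => G (i.insertNth (α := fun _ => ℂ) 1 u) k)
      ((ContinuousLinearMap.proj (R := ℂ) (φ := fun _ : Fin 3 => ℂ) k).comp (L.comp (ins i))) u :=
    fun k => hasFDerivAt_pi'.1 hcomp k
  have hi : G (i.insertNth (α := fun _ => ℂ) 1 u) i = c := by
    rw [hG]; simp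
  have hj : ∀ j : Fin 2, G (i.insertNth (α := fun _ => ℂ) 1 u) (i.succAbove j) = c * u j := by
    intro j; rw [hG]; simp
  have hinv : HasFDerivAt (fun u : Fin 2 → ℂ => (G (i.insertNth (α := fun _ => ℂ) 1 u) i)⁻¹)
      (-(c ^ 2)⁻¹ • ((ContinuousLinearMap.proj (R := ℂ) (φ := fun _ : Fin 3 => ℂ) i).comp
        (L.comp (ins i)))) u := by
    have h1 : HasDerivAt (fun x : ℂ => x⁻¹) (-(c ^ 2)⁻¹)
        (G (i.insertNth (α := fun _ => ℂ) 1 u) i) := by
      rw [hi]; exact hasDerivAt_inv hc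
    exact h1.comp_hasFDerivAt u (hcoord i)
  let A' : Fin 2 → ((Fin 2 → ℂ) →L[ℂ] ℂ) := fun j =>
    (c * u j) • (-(c ^ 2)⁻¹ • ((ContinuousLinearMap.proj (R := ℂ) (φ := fun _ : Fin 3 => ℂ) i).comp
        (L.comp (ins i)))) +
      c⁻¹ • ((ContinuousLinearMap.proj (R := ℂ) (φ := fun _ : Fin 3 => ℂ) (i.succAbove j)).comp
        (L.comp (ins i)))
  refine ⟨ContinuousLinearMap.pi A', ?_, ?_⟩
  · rw [hasFDerivAt_pi]
    intro j
    have h := (hcoord (i.succAbove j)).mul hinv
    rw [hi, hj j] at h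
    exact h
  · intro h j
    simp only [ContinuousLinearMap.coe_pi', A', add_apply, smul_apply,
      ContinuousLinearMap.comp_apply, ContinuousLinearMap.proj_apply, smul_eq_mul]
    field_simp
    ring

/-- An eigenvector of the derivative of the lift modulo the line of the fixed point gives an
eigenvector of the derivative read in the chart. -/
theorem eigen_chart (i : Fin 3) (u : Fin 2 → ℂ) (L : (Fin 3 → ℂ) →L[ℂ] (Fin 3 → ℂ))
    (c : ℂ) (hc : c ≠ 0) (A : (Fin 2 → ℂ) →L[ℂ] (Fin 2 → ℂ))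
    (hA : ∀ (h : Fin 2 → ℂ) (j : Fin 2),
        A h j = c⁻¹ * (L (ins i h) (i.succAbove j) - u j * L (ins i h) i))
    (κ : ℂ) (hLv : L (i.insertNth (α := fun _ => ℂ) 1 u) =
      κ • i.insertNth (α := fun _ => ℂ) 1 u)
    (w : Fin 3 → ℂ) (μ s : ℂ)
    (hLw : L w = (c * μ) • w + s • i.insertNth (α := fun _ => ℂ) 1 u)
    (hw : ∀ a : ℂ, w ≠ a • i.insertNth (α := fun _ => ℂ) 1 u) :
    Module.End.HasEigenvalue (A : (Fin 2 → ℂ) →ₗ[ℂ] (Fin 2 → ℂ)) μ := by
  set v : Fin 3 → ℂ := i.insertNth (α := fun _ => ℂ) 1 u with hv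
  have hvi : v i = 1 := by simp [hv]
  have hvj : ∀ j, v (i.succAbove j) = u j := by intro j; simp [hv]
  let h : Fin 2 → ℂ := fun j => w (i.succAbove j) - w i * u j
  have hins : ins i h = w - w i • v := by
    funext k
    rcases Fin.eq_self_or_eq_succAbove i k with hk | ⟨j, hk⟩
    · rw [hk, ins_same]; simp [hvi]
    · rw [hk, ins_succAbove]; simp [hvj, h]
  have hLh : L (ins i h) = (c * μ) • w + (s - w i * κ) • v := by
    rw [hins, map_sub, map_smul, hLw, hLv, smul_smul, sub_smul]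
    abel
  apply Module.End.hasEigenvalue_of_hasEigenvector (x := h)
  rw [Module.End.hasEigenvector_iff, Module.End.mem_eigenspace_iff]
  constructor
  · funext j
    change A h j = (μ • h) j
    rw [hA, hLh]
    simp only [Pi.add_apply, Pi.smul_apply, smul_eq_mul, hvi, hvj, h]
    field_simp
    ring
  · intro h0
    apply hw (w i)
    have : ins i h = 0 := by rw [h0, map_zero]
    rw [hins] at this
    exact sub_eq_zero.1 this

/-- If `p` is a fixed point in the domain of the `i`-th chart, its normalised representative `v`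
satisfies `F(v) = c v` with `c ≠ 0`. -/
theorem fixed_normalised {d : ℕ} (f : HolMap d) (p : ℙ ℂ (Fin 3 → ℂ)) (hp : f.map p = p)
    (i : Fin 3) (hi : p.rep i ≠ 0) :
    ∃ c : ℂ, c ≠ 0 ∧ f.lift (i.insertNth (α := fun _ => ℂ) 1 (ofPlane i p)) =
      c • i.insertNth (α := fun _ => ℂ) 1 (ofPlane i p) := by
  have hv : i.insertNth (α := fun _ => ℂ) 1 (ofPlane i p) = (p.rep i)⁻¹ • p.rep := by
    funext k
    rcases Fin.eq_self_or_eq_succAbove i k with rfl | ⟨j, rfl⟩
    · simp [hi]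
    · simp only [Fin.insertNth_apply_succAbove, ofPlane, Pi.smul_apply, smul_eq_mul]
      field_simp
  have hmap : Projectivization.mk ℂ (f.lift p.rep) (f.lift_ne_zero p.rep_nonzero)
      = Projectivization.mk ℂ p.rep p.rep_nonzero := by
    rw [Projectivization.mk_rep]; exact hp
  rw [Projectivization.mk_eq_mk_iff'] at hmap
  obtain ⟨a, ha⟩ := hmap
  refine ⟨(p.rep i)⁻¹ ^ d * a * p.rep i, ?_, ?_⟩
  · have ha0 : a ≠ 0 := by
      rintro rfl
      rw [zero_smul] at ha
      exact f.lift_ne_zero p.rep_nonzero ha.symm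
    exact mul_ne_zero (mul_ne_zero (pow_ne_zero _ (inv_ne_zero hi)) ha0) hi
  · rw [hv, lift_smul, ← ha, smul_smul, smul_smul]
    congr 1
    field_simp

/-- The polynomials of the example in degree `n + 2`, with `e = 1/(n+2)^2`:
`x t^(n+1) + e (y^(n+2) - t^(n+2))`, `y t^(n+1) + e (x^(n+2) + t^(n+2))`, `t^(n+2)`. -/
noncomputable def exF (n : ℕ) : Fin 3 → MvPolynomial (Fin 3) ℂ :=
  ![MvPolynomial.X 0 * MvPolynomial.X 2 ^ (n + 1) +
      MvPolynomial.C (1 / ((n : ℂ) + 2) ^ 2) *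
        (MvPolynomial.X 1 ^ (n + 2) - MvPolynomial.X 2 ^ (n + 2)),
    MvPolynomial.X 1 * MvPolynomial.X 2 ^ (n + 1) +
      MvPolynomial.C (1 / ((n : ℂ) + 2) ^ 2) *
        (MvPolynomial.X 0 ^ (n + 2) + MvPolynomial.X 2 ^ (n + 2)),
    MvPolynomial.X 2 ^ (n + 2)]

theorem two_ne (n : ℕ) : ((n : ℂ) + 2) ≠ 0 := by
  have : ((n + 2 : ℕ) : ℂ) ≠ 0 := Nat.cast_ne_zero.2 (by omega)
  push_cast at this
  exact this

/-- The example as a holomorphic self-map of the plane of degree `n + 2`. -/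
noncomputable def exMap (n : ℕ) : HolMap (n + 2) where
  F := exF n
  homogeneous := by
    have hX : ∀ (k : Fin 3) (m : ℕ), (MvPolynomial.X k ^ m : MvPolynomial (Fin 3) ℂ).IsHomogeneous m := by
      intro k m
      have := (MvPolynomial.isHomogeneous_X ℂ k).pow m
      simpa using this
    have hC : ∀ (a : ℂ) (P : MvPolynomial (Fin 3) ℂ) (m : ℕ), P.IsHomogeneous m →
        (MvPolynomial.C a * P).IsHomogeneous m := by
      intro a P m hP
      have := (MvPolynomial.isHomogeneous_C (Fin 3) a).mul hP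
      simpa using this
    have h1 : ∀ k : Fin 3,
        (MvPolynomial.X k * MvPolynomial.X 2 ^ (n + 1) : MvPolynomial (Fin 3) ℂ).IsHomogeneous
          (n + 2) := by
      intro k
      have := (MvPolynomial.isHomogeneous_X ℂ k).mul (hX 2 (n + 1))
      have e : 1 + (n + 1) = n + 2 := by omega
      rwa [e] at this
    intro i
    fin_cases i
    · exact (h1 0).add (hC _ _ _ ((hX 1 _).sub (hX 2 _)))
    · exact (h1 1).add (hC _ _ _ ((hX 0 _).add (hX 2 _)))
    · exact hX 2 _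
  onlyZero := by
    intro z hz
    have h2 : z 2 = 0 := by
      have := hz 2
      simp [exF] at this
      exact this
    have h0 : z 1 = 0 := by
      have := hz 0
      simp [exF, h2] at this
      rcases this with h | h
      · exact absurd h (two_ne n)
      · exact h
    have h1 : z 0 = 0 := by
      have := hz 1
      simp [exF, h2] at this
      rcases this with h | h
      · exact absurd h (two_ne n)
      · exact h
    funext k
    fin_cases k
    · exact h1
    · exact h0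
    · exact h2

theorem lift_exMap (n : ℕ) (z : Fin 3 → ℂ) :
    (exMap n).lift z = ![z 0 * z 2 ^ (n + 1) + 1 / ((n : ℂ) + 2) ^ 2 * (z 1 ^ (n + 2) - z 2 ^ (n + 2)),
      z 1 * z 2 ^ (n + 1) + 1 / ((n : ℂ) + 2) ^ 2 * (z 0 ^ (n + 2) + z 2 ^ (n + 2)),
      z 2 ^ (n + 2)] := by
  funext i
  fin_cases i <;> simp [HolMap.lift, exMap, exF]

/-- Jacobian matrix of the lift. -/
noncomputable def Jm (n : ℕ) (z : Fin 3 → ℂ) : Matrix (Fin 3) (Fin 3) ℂ :=
  !![z 2 ^ (n + 1), 1 / ((n : ℂ) + 2) * z 1 ^ (n + 1),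
      z 0 * (((n : ℂ) + 1) * z 2 ^ n) - 1 / ((n : ℂ) + 2) * z 2 ^ (n + 1);
    1 / ((n : ℂ) + 2) * z 0 ^ (n + 1), z 2 ^ (n + 1),
      z 1 * (((n : ℂ) + 1) * z 2 ^ n) + 1 / ((n : ℂ) + 2) * z 2 ^ (n + 1);
    0, 0, ((n : ℂ) + 2) * z 2 ^ (n + 1)]

theorem hasFDerivAt_lift (n : ℕ) (z : Fin 3 → ℂ) :
    HasFDerivAt (exMap n).lift (LinearMap.toContinuousLinearMap (Matrix.toLin' (Jm n z))) z := by
  have hfun : (exMap n).lift = fun z : Fin 3 → ℂ =>
      ![z 0 * z 2 ^ (n + 1) + 1 / ((n : ℂ) + 2) ^ 2 * (z 1 ^ (n + 2) - z 2 ^ (n + 2)),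
      z 1 * z 2 ^ (n + 1) + 1 / ((n : ℂ) + 2) ^ 2 * (z 0 ^ (n + 2) + z 2 ^ (n + 2)),
      z 2 ^ (n + 2)] := by
    funext z; exact lift_exMap n z
  rw [hfun]
  apply hasFDerivAt_pi''
  intro i
  have h0 : HasFDerivAt (fun w : Fin 3 → ℂ => w 0)
      (ContinuousLinearMap.proj (R := ℂ) (φ := fun _ : Fin 3 => ℂ) 0) z := hasFDerivAt_apply 0 z
  have h1 : HasFDerivAt (fun w : Fin 3 → ℂ => w 1)
      (ContinuousLinearMap.proj (R := ℂ) (φ := fun _ : Fin 3 => ℂ) 1) z := hasFDerivAt_apply 1 z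
  have h2 : HasFDerivAt (fun w : Fin 3 → ℂ => w 2)
      (ContinuousLinearMap.proj (R := ℂ) (φ := fun _ : Fin 3 => ℂ) 2) z := hasFDerivAt_apply 2 z
  have hn := two_ne n
  fin_cases i
  · have h := (h0.mul (h2.pow (n + 1))).add
      ((((h1.pow (n + 2))).sub (h2.pow (n + 2))).const_mul (1 / ((n : ℂ) + 2) ^ 2))
    refine (h.congr_fderiv ?_)
    ext w
    simp [Jm, dotProduct, Fin.sum_univ_three]
    field_simp
    ring
  · have h := (h1.mul (h2.pow (n + 1))).add
      ((((h0.pow (n + 2))).add (h2.pow (n + 2))).const_mul (1 / ((n : ℂ) + 2) ^ 2))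
    refine (h.congr_fderiv ?_)
    ext w
    simp [Jm, dotProduct, Fin.sum_univ_three]
    field_simp
    ring
  · have h := (h2.pow (n + 2))
    refine (h.congr_fderiv ?_)
    ext w
    simp [Jm, dotProduct, Fin.sum_univ_three]

/-- A number whose power of exponent n+2 equals (-1)^(n+1) is at distance at least 2/(n+2) from -1. -/
theorem far_from_neg_one (n : ℕ) (z : ℂ) (hz : z ^ (n + 2) = (-1) ^ (n + 1)) :
    ‖z‖ = 1 ∧ 2 ≤ ((n : ℝ) + 2) * ‖z + 1‖ := by
  have h1 : ‖z‖ = 1 := by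
    have h := congrArg norm hz
    rw [norm_pow, norm_pow, norm_neg, norm_one, one_pow] at h
    exact (pow_eq_one_iff_of_nonneg (norm_nonneg z) (by omega)).1 h
  refine ⟨h1, ?_⟩
  have h2 : (-z) ^ (n + 2) = -1 := by
    rw [neg_pow, hz, ← pow_add]
    have : n + 2 + (n + 1) = 2 * (n + 1) + 1 := by ring
    rw [this, pow_succ, pow_mul]
    norm_num
  have h3 : (∑ k ∈ Finset.range (n + 2), (-z) ^ k) * (-z - 1) = -2 := by
    rw [geom_sum_mul, h2]; norm_num
  have h4 := congrArg norm h3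
  rw [norm_mul, norm_neg, Complex.norm_ofNat] at h4
  have h5 : ‖∑ k ∈ Finset.range (n + 2), (-z) ^ k‖ ≤ (n : ℝ) + 2 := by
    refine (norm_sum_le _ _).trans ?_
    have : ∀ k ∈ Finset.range (n + 2), ‖(-z) ^ k‖ = 1 := by
      intro k _
      rw [norm_pow, norm_neg, h1, one_pow]
    rw [Finset.sum_congr rfl this]
    simp
  have h6 : ‖-z - 1‖ = ‖z + 1‖ := by
    rw [← norm_neg]; congr 1; ring
  rw [h6] at h4
  calc (2 : ℝ) = ‖∑ k ∈ Finset.range (n + 2), (-z) ^ k‖ * ‖z + 1‖ := h4.symm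
    _ ≤ ((n : ℝ) + 2) * ‖z + 1‖ := mul_le_mul_of_nonneg_right h5 (norm_nonneg _)

/-- The square root of such a number with negative real part. -/
theorem exists_root (n : ℕ) (z : ℂ) (hz : z ^ (n + 2) = (-1) ^ (n + 1)) :
    ∃ ζ : ℂ, ζ ^ 2 = z ∧ ζ ≠ 0 ∧ ‖1 + 1 / ((n : ℂ) + 2) * ζ‖ < 1 ∧
      1 < ‖1 - 1 / ((n : ℂ) + 2) * ζ‖ := by
  obtain ⟨h1, h2⟩ := far_from_neg_one n z hz
  obtain ⟨ζ₀, hζ₀⟩ := IsAlgClosed.exists_pow_nat_eq z (n := 2) (by norm_num)
  obtain ⟨ζ, hζ, hre⟩ : ∃ ζ : ℂ, ζ ^ 2 = z ∧ ζ.re ≤ 0 := by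
    rcases le_total ζ₀.re 0 with h | h
    · exact ⟨ζ₀, hζ₀, h⟩
    · exact ⟨-ζ₀, by rw [neg_sq, hζ₀], by simpa using h⟩
  have hnorm : ‖ζ‖ = 1 := by
    have h := congrArg norm hζ
    rw [norm_pow, h1] at h
    exact (pow_eq_one_iff_of_nonneg (norm_nonneg ζ) (by omega)).1 h
  have hsq : ζ.re ^ 2 + ζ.im ^ 2 = 1 := by
    have h := Complex.sq_norm ζ
    rw [hnorm, Complex.normSq_apply] at h
    nlinarith
  have hz1 : ‖z + 1‖ ^ 2 = (2 * ζ.re) ^ 2 := by
    rw [Complex.sq_norm, ← hζ, Complex.normSq_apply]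
    simp only [Complex.add_re, Complex.add_im, Complex.one_re, Complex.one_im, pow_two,
      Complex.mul_re, Complex.mul_im]
    have e1 : ζ.re * ζ.re - ζ.im * ζ.im + 1 = 2 * ζ.re ^ 2 := by nlinarith
    rw [e1]
    nlinarith
  have hN : (0 : ℝ) < (n : ℝ) + 2 := by positivity
  have hz2 : ‖z + 1‖ = -(2 * ζ.re) := by
    have ha : 0 ≤ -(2 * ζ.re) := by linarith
    have hb : ‖z + 1‖ ^ 2 = (-(2 * ζ.re)) ^ 2 := by rw [hz1]; ring
    exact (sq_eq_sq₀ (norm_nonneg _) ha).1 hb
  rw [hz2] at h2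
  have hre' : ((n : ℝ) + 2) * ζ.re ≤ -1 := by linarith
  set q : ℝ := 1 / ((n : ℝ) + 2) with hq
  have hqpos : 0 < q := by positivity
  have hqN : q * ((n : ℝ) + 2) = 1 := by rw [hq]; field_simp
  have hqc : (1 / ((n : ℂ) + 2)) = ((q : ℝ) : ℂ) := by rw [hq]; push_cast; ring
  have hreq : ζ.re ≤ -q := by
    have : q * (((n : ℝ) + 2) * ζ.re) ≤ q * (-1) := mul_le_mul_of_nonneg_left hre' hqpos.le
    rw [← mul_assoc, hqN] at this
    linarith
  refine ⟨ζ, hζ, ?_, ?_, ?_⟩
  · rintro rfl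
    simp at hnorm
  · rw [hqc]
    have h : ‖1 + ((q : ℝ) : ℂ) * ζ‖ ^ 2 < 1 ^ 2 := by
      rw [Complex.sq_norm, Complex.normSq_apply]
      simp only [Complex.add_re, Complex.add_im, Complex.one_re, Complex.one_im, Complex.mul_re,
        Complex.mul_im, Complex.ofReal_re, Complex.ofReal_im]
      nlinarith [mul_le_mul_of_nonneg_left hreq hqpos.le, mul_pos hqpos hqpos]
    exact lt_of_pow_lt_pow_left₀ 2 (by norm_num) h
  · rw [hqc]
    have h : 1 ^ 2 < ‖1 - ((q : ℝ) : ℂ) * ζ‖ ^ 2 := by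
      rw [Complex.sq_norm, Complex.normSq_apply]
      simp only [Complex.sub_re, Complex.sub_im, Complex.one_re, Complex.one_im, Complex.mul_re,
        Complex.mul_im, Complex.ofReal_re, Complex.ofReal_im]
      nlinarith [mul_le_mul_of_nonneg_left hreq hqpos.le, mul_pos hqpos hqpos]
    exact lt_of_pow_lt_pow_left₀ 2 (norm_nonneg _) h

/-- Linear algebra at the fixed points of the example: modulo the line of the fixed point, the
derivative of the lift has an eigenvalue inside and an eigenvalue outside the unit circle. -/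
theorem eigen_lift (n : ℕ) (v : Fin 3 → ℂ) (hv : v ≠ 0) (c : ℂ)
    (hfix : (exMap n).lift v = c • v) :
    (∃ κ : ℂ, Matrix.toLin' (Jm n v) v = κ • v) ∧
    ∃ (μ₁ μ₂ : ℂ) (w₁ w₂ : Fin 3 → ℂ) (s₁ s₂ : ℂ),
      ‖μ₁‖ < 1 ∧ 1 < ‖μ₂‖ ∧
      Matrix.toLin' (Jm n v) w₁ = (c * μ₁) • w₁ + s₁ • v ∧ (∀ a : ℂ, w₁ ≠ a • v) ∧
      Matrix.toLin' (Jm n v) w₂ = (c * μ₂) • w₂ + s₂ • v ∧ (∀ a : ℂ, w₂ ≠ a • v) := by
  have hn := two_ne n
  rw [lift_exMap] at hfix
  have e0 := congrFun hfix 0
  have e1 := congrFun hfix 1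
  have e2 := congrFun hfix 2
  simp only [Pi.smul_apply, smul_eq_mul, Matrix.cons_val_zero, Matrix.cons_val_one,
    Matrix.cons_val] at e0 e1 e2
  set x := v 0 with hx
  set y := v 1 with hy
  set t := v 2 with ht
  have hJ : ∀ w : Fin 3 → ℂ, Matrix.toLin' (Jm n v) w =
      ![t ^ (n + 1) * w 0 + 1 / ((n : ℂ) + 2) * y ^ (n + 1) * w 1 +
          (x * (((n : ℂ) + 1) * t ^ n) - 1 / ((n : ℂ) + 2) * t ^ (n + 1)) * w 2,
        1 / ((n : ℂ) + 2) * x ^ (n + 1) * w 0 + t ^ (n + 1) * w 1 +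
          (y * (((n : ℂ) + 1) * t ^ n) + 1 / ((n : ℂ) + 2) * t ^ (n + 1)) * w 2,
        ((n : ℂ) + 2) * t ^ (n + 1) * w 2] := by
    intro w
    funext k
    fin_cases k <;>
      simp [Jm, Matrix.toLin'_apply, Matrix.mulVec, dotProduct, Fin.sum_univ_three, hx, hy, ht]
  refine ⟨⟨((n : ℂ) + 2) * c, ?_⟩, ?_⟩
  · rw [hJ]
    funext k
    fin_cases k
    · simp only [Fin.zero_eta, Fin.isValue, Matrix.cons_val_zero, Pi.smul_apply, smul_eq_mul,
        ← hx, ← hy, ← ht]
      rw [mul_assoc (((n : ℂ) + 2)) c x, ← e0]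
      field_simp
      ring
    · simp only [Fin.mk_one, Fin.isValue, Matrix.cons_val_one, Matrix.cons_val_zero, Pi.smul_apply,
        smul_eq_mul, ← hx, ← hy, ← ht]
      rw [mul_assoc (((n : ℂ) + 2)) c y, ← e1]
      field_simp
      ring
    · simp only [Fin.reduceFinMk, Fin.isValue, Matrix.cons_val, Pi.smul_apply, smul_eq_mul,
        ← ht]
      rw [mul_assoc (((n : ℂ) + 2)) c t, ← e2]
      ring
  · by_cases ht0 : t = 0
    · rw [ht0] at e0 e1
      have hxy : x ≠ 0 ∧ y ≠ 0 := by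
        have hiff : x = 0 ↔ y = 0 := by
          constructor
          · intro h
            rw [h] at e0
            simpa [hn] using e0
          · intro h
            rw [h] at e1
            simpa [hn] using e1
        constructor
        · intro h
          apply hv
          have h' := hiff.1 h
          funext k
          fin_cases k
          · exact h
          · exact h'
          · exact ht0
        · intro h
          apply hv
          have h' := hiff.2 h
          funext k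
          fin_cases k
          · exact h'
          · exact h
          · exact ht0
      refine ⟨0, -((n : ℂ) + 2), ![0, 0, 1], ![x, -y, 0], ((n : ℂ) + 1) * t ^ n, 0, ?_, ?_, ?_,
        ?_, ?_, ?_⟩
      · simp
      · rw [norm_neg]
        have : ((n : ℂ) + 2) = ((n + 2 : ℕ) : ℂ) := by push_cast; ring
        rw [this, Complex.norm_natCast]
        push_cast
        have : (0 : ℝ) ≤ n := Nat.cast_nonneg n
        linarith
      · rw [hJ]
        funext k
        fin_cases k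
        · simp [← hx, ht0]; ring
        · simp [← hy, ht0]; ring
        · simp [← ht, ht0]
      · intro a h
        have := congrFun h 2
        simp [← ht, ht0] at this
      · rw [hJ]
        funext k
        fin_cases k
        · simp only [Fin.zero_eta, Fin.isValue, Matrix.cons_val_zero, Matrix.cons_val_one,
            Matrix.cons_val, Pi.add_apply, Pi.smul_apply, smul_eq_mul, ht0]
          have : c * -((n : ℂ) + 2) * x = -((n : ℂ) + 2) * (c * x) := by ring
          rw [this, ← e0]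
          field_simp
          ring
        · simp only [Fin.mk_one, Fin.isValue, Matrix.cons_val_zero, Matrix.cons_val_one,
            Matrix.cons_val, Pi.add_apply, Pi.smul_apply, smul_eq_mul, ht0]
          have : c * -((n : ℂ) + 2) * -y = ((n : ℂ) + 2) * (c * y) := by ring
          rw [this, ← e1]
          field_simp
          ring
        · simp
      · intro a h
        have h0 := congrFun h 0
        have h1 := congrFun h 1
        simp only [Matrix.cons_val_zero, Matrix.cons_val_one, Pi.smul_apply, smul_eq_mul,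
          ← hx, ← hy] at h0 h1
        have ha : a = 1 := by
          have : (a - 1) * x = 0 := by linear_combination -h0
          rcases mul_eq_zero.1 this with h' | h'
          · exact sub_eq_zero.1 h'
          · exact absurd h' hxy.1
        rw [ha] at h1
        have : (2 : ℂ) * y = 0 := by linear_combination -h1
        rcases mul_eq_zero.1 this with h' | h'
        · norm_num at h'
        · exact hxy.2 h'
    · have hct : c = t ^ (n + 1) := by
        have : (t ^ (n + 1) - c) * t = 0 := by rw [sub_mul, ← pow_succ, e2, sub_self]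
        rcases mul_eq_zero.1 this with h' | h'
        · exact (sub_eq_zero.1 h').symm
        · exact absurd h' ht0
      have hyt : y ^ (n + 2) = t ^ (n + 2) := by
        rw [hct] at e0
        have h' : 1 / ((n : ℂ) + 2) ^ 2 * (y ^ (n + 2) - t ^ (n + 2)) = 0 := by
          linear_combination e0
        rcases mul_eq_zero.1 h' with h' | h'
        · exact absurd h' (one_div_ne_zero (pow_ne_zero 2 hn))
        · exact sub_eq_zero.1 h'
      have hxt : x ^ (n + 2) = -t ^ (n + 2) := by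
        rw [hct] at e1
        have h' : 1 / ((n : ℂ) + 2) ^ 2 * (x ^ (n + 2) + t ^ (n + 2)) = 0 := by
          linear_combination e1
        rcases mul_eq_zero.1 h' with h' | h'
        · exact absurd h' (one_div_ne_zero (pow_ne_zero 2 hn))
        · exact eq_neg_of_add_eq_zero_left h'
      have htp : t ^ (n + 1) ≠ 0 := pow_ne_zero _ ht0
      obtain ⟨ζ, hζ, hζ0, hlt, hgt⟩ := exists_root n
        ((x * y) ^ (n + 1) / (t ^ (n + 1) * t ^ (n + 1))) (by
          rw [div_pow, div_eq_iff (by positivity)]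
          calc ((x * y) ^ (n + 1)) ^ (n + 2) = (x ^ (n + 2) * y ^ (n + 2)) ^ (n + 1) := by ring
            _ = (-t ^ (n + 2) * t ^ (n + 2)) ^ (n + 1) := by rw [hyt, hxt]
            _ = (-1) ^ (n + 1) * (t ^ (n + 2) * t ^ (n + 2)) ^ (n + 1) := by
              rw [← mul_pow]; congr 1; ring
            _ = (-1) ^ (n + 1) * (t ^ (n + 1) * t ^ (n + 1)) ^ (n + 2) := by ring)
      have hζ' : x ^ (n + 1) * y ^ (n + 1) = t ^ (n + 1) * t ^ (n + 1) * ζ ^ 2 := by
        rw [hζ, mul_pow]; field_simp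
      refine ⟨1 + 1 / ((n : ℂ) + 2) * ζ, 1 - 1 / ((n : ℂ) + 2) * ζ, ![y ^ (n + 1), t ^ (n + 1) * ζ, 0],
        ![y ^ (n + 1), -(t ^ (n + 1) * ζ), 0], 0, 0, hlt, hgt, ?_, ?_, ?_, ?_⟩
      · rw [hJ]
        funext k
        fin_cases k
        · simp [hct]; ring
        · simp [hct]
          rw [mul_assoc, hζ']
          ring
        · simp
      · intro a h
        have h2 := congrFun h 2
        have h1 := congrFun h 1
        simp only [Matrix.cons_val_one, Matrix.cons_val, Pi.smul_apply, smul_eq_mul,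
          ← ht, ← hy] at h2 h1
        have ha : a = 0 := by
          rcases mul_eq_zero.1 h2.symm with h' | h'
          · exact h'
          · exact absurd h' ht0
        rw [ha, zero_mul] at h1
        exact mul_ne_zero htp hζ0 h1
      · rw [hJ]
        funext k
        fin_cases k
        · simp [hct]; ring
        · simp [hct]
          rw [mul_assoc, hζ']
          ring
        · simp
      · intro a h
        have h2 := congrFun h 2
        have h1 := congrFun h 1
        simp only [Matrix.cons_val_one, Matrix.cons_val, Pi.smul_apply, smul_eq_mul,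
          ← ht, ← hy] at h2 h1
        have ha : a = 0 := by
          rcases mul_eq_zero.1 h2.symm with h' | h'
          · exact h'
          · exact absurd h' ht0
        rw [ha, zero_mul] at h1
        exact mul_ne_zero htp hζ0 (neg_eq_zero.1 h1)

/-- In every degree `d ≥ 2` there is a holomorphic self-map of `P^2` of degree `d` all of whose
fixed points are saddles: read in any standard affine chart containing the fixed point, the
derivative has an eigenvalue of modulus `< 1` and an eigenvalue of modulus `> 1`. In particular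
the map has no repelling fixed point. -/
theorem result : ∀ d : ℕ, 2 ≤ d → ∃ f : HolMap d, ∀ p : ℙ ℂ (Fin 3 → ℂ), f.map p = p →
    ∀ i : Fin 3, p.rep i ≠ 0 →
      ∃ A : (Fin 2 → ℂ) →L[ℂ] (Fin 2 → ℂ), HasFDerivAt (f.inChart i) A (ofPlane i p) ∧
        ∃ μ₁ μ₂ : ℂ, Module.End.HasEigenvalue (A : (Fin 2 → ℂ) →ₗ[ℂ] (Fin 2 → ℂ)) μ₁ ∧
          Module.End.HasEigenvalue (A : (Fin 2 → ℂ) →ₗ[ℂ] (Fin 2 → ℂ)) μ₂ ∧
          ‖μ₁‖ < 1 ∧ 1 < ‖μ₂‖ := by
  intro d hd
  obtain ⟨n, rfl⟩ : ∃ n, d = n + 2 := ⟨d - 2, by omega⟩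
  refine ⟨exMap n, fun p hp i hi => ?_⟩
  obtain ⟨c, hc, hfix⟩ := fixed_normalised (exMap n) p hp i hi
  set u := ofPlane i p with hu
  have hv : i.insertNth (α := fun _ => ℂ) 1 u ≠ 0 := by
    intro h
    have := congrFun h i
    simp at this
  obtain ⟨⟨κ, hκ⟩, μ₁, μ₂, w₁, w₂, s₁, s₂, h1, h2, hw₁, hn₁, hw₂, hn₂⟩ :=
    eigen_lift n _ hv c hfix
  obtain ⟨A, hA, hAf⟩ := hasFDerivAt_chart (exMap n).lift i u _ (hasFDerivAt_lift n _) c hc hfix
  refine ⟨A, ?_, μ₁, μ₂, ?_, ?_, h1, h2⟩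
  · rw [inChart_eq]; exact hA
  · exact eigen_chart i u _ c hc A hAf κ hκ w₁ μ₁ s₁ hw₁ hn₁
  · exact eigen_chart i u _ c hc A hAf κ hκ w₂ μ₂ s₂ hw₂ hn₂

end Pool.Agent.Results.MP_10bb55_an.NoRepelling
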